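import Pool.Agent.H11.TB.Structure

set_option autoImplicit false

namespace Pool.Agent.Results.MP_222836_al.LargeClass

open Pool.Agent.H11.TB
open scoped commutatorElement

/-- Q1 holds for all groups of the class `Cls`; moreover all locally graded groups of this class
whose subgroups are T-groups are metabelian. -/
theorem result :
    ∀ (G : Type) [Group G], Cls G → TBar G → LocGraded G →
      (∀ x y z w : G, ⁅x, y⁆ * ⁅z, w⁆ = ⁅z, w⁆ * ⁅x, y⁆) ∧
        ((∃ g : G, ¬ IsOfFinOrder g) → ∀ a b : G, a * b = b * a) := by
  intro G _ hc hT hl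
  exact ⟨main_metabelian hc hT hl, fun hn a b => main_comm hc hT hl hn a b⟩

end Pool.Agent.Results.MP_222836_al.LargeClass
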