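import Pool.Agent.H11.TB.Action

set_option autoImplicit false

namespace Pool.Agent.Results.MP_222836_al.OrderedActions

open Pool.Agent.H11.TB

/-- A group all of whose subgroups are T-groups, acting faithfully on a complete linear order, is abelian if all
the groups of right germs and of left germs of the stabilizers of the points are locally graded and in `Cls`. -/
theorem result :
    ∀ (G X : Type) [Group G] [CompleteLinearOrder X] (φ : G →* (X ≃o X)), Function.Injective φ → TBar G →
      (∀ p : X, (LocGraded (Stab φ p ⧸ RightTrivial φ p) ∧ Cls (Stab φ p ⧸ RightTrivial φ p)) ∧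
        (LocGraded (Stab φ p ⧸ LeftTrivial φ p) ∧ Cls (Stab φ p ⧸ LeftTrivial φ p))) →
      ∀ a b : G, a * b = b * a := by
  intro G X _ _ φ hφ hT h
  exact comm_of_order φ hφ hT (fun p => (h p).1) (fun p => (h p).2)

end Pool.Agent.Results.MP_222836_al.OrderedActions
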