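import Pool.Agent.H11.TB.Reduction

set_option autoImplicit false

namespace Pool.Agent.Results.MP_222836_al.Reduction

open Pool.Agent.H11.TB
open scoped commutatorElement

/-- If Q1 fails, then it fails for a two-generator locally indicable group all of whose finitely
generated nonabelian subgroups have perfect, infinitely generated derived subgroup and lie outside
the class `Cls`, in which normalisers of subgroups centralise their centres, and which has no free
subgroup of rank two; and conversely. -/
theorem result :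
    (¬ ∀ (G : Type) [Group G], TBar G → LocGraded G → (∃ g : G, ¬ IsOfFinOrder g) →
      ∀ a b : G, a * b = b * a) ↔
    ∃ (G : Type) (_ : Group G), TBar G ∧ LocIndicable G ∧
      (∃ a b : G, Subgroup.closure {a, b} = ⊤ ∧ a * b ≠ b * a) ∧
      (∀ H : Subgroup G, H.FG → (∃ x ∈ H, ∃ y ∈ H, x * y ≠ y * x) →
        ⁅⁅H, H⁆, ⁅H, H⁆⁆ = ⁅H, H⁆ ∧ ¬ (⁅H, H⁆).FG ∧ ¬ Cls H) ∧
      (∀ H : Subgroup G, ∀ a ∈ H, (∀ h ∈ H, a * h = h * a) →
        ∀ n ∈ Subgroup.normalizer (H : Set G), n * a = a * n) ∧
      (∀ f : FreeGroup Bool →* G, ¬ Function.Injective f) := by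
  constructor
  · intro hnot
    push Not at hnot
    obtain ⟨G, _, hT, hl, hn, a, b, hab⟩ := hnot
    have hG := hT.tb2
    have hp := hl.noPerf hG
    have hTn := torsionSub_normal hG hp
    set T := torsionSub hG hp with hTdef
    have hLI : LocIndicable (G ⧸ T) := quotient_locIndicable hG hp hn T (fun x => Iff.rfl)
    have hGT : TB2 (G ⧸ T) := hG.quotient T
    -- the quotient is not commutative
    obtain ⟨x, y, hxy⟩ : ∃ x y : G ⧸ T, x * y ≠ y * x := by
      by_contra hcon
      push Not at hcon
      apply hab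
      obtain ⟨g, hg⟩ := hn
      refine comm_of_class_two hG ?_ hg a b
      intro x y z
      have h1 : QuotientGroup.mk' T (x * y * x⁻¹ * y⁻¹) = 1 := by
        have := hcon (QuotientGroup.mk' T x) (QuotientGroup.mk' T y)
        rw [map_mul, map_mul, map_mul, map_inv, map_inv, this]; group
      have h2 : x * y * x⁻¹ * y⁻¹ ∈ T := (QuotientGroup.eq_one_iff _).1 h1
      exact torsion_central hG hp ⟨g, hg⟩ h2 z
    set K : Subgroup (G ⧸ T) := Subgroup.closure {x, y} with hK
    have hxK : x ∈ K := Subgroup.subset_closure (by simp)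
    have hyK : y ∈ K := Subgroup.subset_closure (by simp)
    have hKT : TBar K := (hGT.subgroup K).tbar
    have hKL : LocIndicable K := hLI.subgroup K
    refine ⟨K, inferInstance, hKT, hKL, ⟨⟨x, hxK⟩, ⟨y, hyK⟩, ?_, ?_⟩, ?_, ?_, ?_⟩
    · apply Subgroup.map_injective K.subtype_injective
      rw [MonoidHom.map_closure, ← MonoidHom.range_eq_map, Subgroup.range_subtype,
        Set.image_insert_eq, Set.image_singleton]
      rfl
    · intro h
      exact hxy (congrArg Subtype.val h)
    · intro H hH hne
      exact fg_subgroup_structure hKT hKL H hH hne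
    · intro H c hc hcen n hnn
      by_cases hc1 : c = 1
      · subst hc1; simp
      · exact normalizer_centralizes hKT.tb2 H hc hcen (hKL.torsionFree hc1) hnn
    · intro f hf
      exact not_tb2_freeGroup (hKT.tb2.of_injective f hf)
  · rintro ⟨G, _, hT, hL, ⟨a, b, _, hab⟩, _⟩ hQ
    have ha1 : a ≠ 1 := by rintro rfl; simp at hab
    exact hab (hQ G hT hL.locGraded ⟨a, hL.torsionFree ha1⟩ a b)

end Pool.Agent.Results.MP_222836_al.Reduction
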