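import Pool.Agent.H33.TA.Main
import Pool.Agent.H62.TA.SI

set_option autoImplicit false

namespace Pool.Agent.Results.MP_222836_al.TreeActions

open Pool.Agent.H11.TB
open Pool.Agent.H62.TA (SI)
open scoped commutatorElement

/-- Let `G` be a group all of whose subgroups are T-groups, acting by isometries on a `0`-hyperbolic space (a point,
the vertices of a tree, ..). Either `G` is metabelian, and abelian if it has an element of infinite order, or some
finitely generated subgroup `H` of `G''` with a bounded orbit has a nontrivial perfect second derived subgroup which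
is the normal closure in `H` of a finite set and has a simple quotient, and `H` is not an SI-group. The second case
is impossible if the action is faithful and balls are finite. -/
theorem result :
    ∀ (G X : Type) [Group G] [MetricSpace X] [Nonempty X] [MulAction G X] [IsIsometricSMul G X],
      TBar G →
      (∀ x y z w : X, dist x y + dist z w ≤ max (dist x z + dist y w) (dist x w + dist y z)) →
      (((∀ x y z w : G, ⁅x, y⁆ * ⁅z, w⁆ = ⁅z, w⁆ * ⁅x, y⁆) ∧
          ((∃ g : G, ¬ IsOfFinOrder g) → ∀ a b : G, a * b = b * a)) ∨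
        (¬ ((∀ g : G, (∀ x : X, g • x = x) → g = 1) ∧ ∀ (x : X) (r : ℝ), (Metric.closedBall x r).Finite) ∧
          ∃ H : Subgroup G, H.FG ∧ H ≤ derivedSeries G 2 ∧ (∃ (x : X) (r : ℝ), ∀ g ∈ H, dist x (g • x) ≤ r) ∧
            ¬ SI H ∧ commutator (derivedSeries H 2) = ⊤ ∧
            (∃ S : Finset H, Subgroup.normalClosure (S : Set H) = derivedSeries H 2) ∧
            ∃ (N : Subgroup (derivedSeries H 2)) (_ : N.Normal), IsSimpleGroup (derivedSeries H 2 ⧸ N))) := by
  intro G X _ _ _ _ _ hT h0
  obtain ⟨o⟩ := (inferInstance : Nonempty X)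
  have hB := Pool.Agent.H33.TA.bounded_second hT.tb2 o h0
  by_cases hex : ∀ H : Subgroup G, H.FG → H ≤ derivedSeries G 2 → derivedSeries H 2 = ⊥
  · left
    have h2 : MetG G := Pool.Agent.H33.TA.metG_of_local hT.tb2 hex
    refine ⟨h2, ?_⟩
    rintro ⟨g, hg⟩ a b
    exact comm_of_metab hT.tb2 (derived_two_eq_bot_iff.2 h2) hg a b
  · right
    push Not at hex
    obtain ⟨H, hH, hle, hne⟩ := hex
    have hb : ∃ (x : X) (r : ℝ), ∀ g ∈ H, dist x (g • x) ≤ r := ⟨o, hB H hH hle⟩
    have h2 : ⁅derivedSeries H 2, derivedSeries H 2⁆ = derivedSeries H 2 := three_eq_two (hT.tb2.subgroup H)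
    obtain ⟨S, hS⟩ := Pool.Agent.H33.TA.second_fng (hT.tb2.subgroup H) ((Group.fg_iff_subgroup_fg H).2 hH)
    refine ⟨?_, H, hH, hle, hb, Pool.Agent.H62.TA.not_si _ h2 S hS hne, ?_, ⟨S, hS⟩,
      Pool.Agent.H33.TA.simple_section (hT.tb2.subgroup H) S _ (derivedSeries_normal H 2) hS hne⟩
    · rintro ⟨hf, hfin⟩
      exact hne (Pool.Agent.H33.TA.second_of_finite_balls hT.tb2 hf hfin H hb)
    · apply Subgroup.map_injective (derivedSeries H 2).subtype_injective
      rw [Subgroup.map_subtype_commutator, h2, ← MonoidHom.range_eq_map, Subgroup.range_subtype]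

end Pool.Agent.Results.MP_222836_al.TreeActions
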